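import Pool.Agent.Lib.MP_04668c_co.E.Base

/-!
# GOOD: a colouring avoiding both families of rules
-/

set_option autoImplicit false
set_option linter.unusedSectionVars false

namespace Pool.Agent.Lib.MP_04668c_co.E.H53

open Finset Classical Module
open Pool.Agent.Lib.MP_04668c_co

variable {V X C : Type} [Fintype V] [Fintype X] [Fintype C]

/-- Valid rules of the second kind. -/
def VY (B : X → Finset V) (L' : ℕ) (i : Finset V × Finset X × Finset X) : Prop :=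
  (KZ B i.1).Nonempty ∧ Conn (adjB B) (KZ B i.1) ∧ (∀ v ∈ i.1, ∃ z, v ∈ B z) ∧
    i.2.1 ⊆ KZ B i.1 ∧ i.2.2 ⊆ KZ B i.1 ∧ (KZ B i.1).card ≤ 2 * L' * i.2.2.card

theorem hsum_part (B : X → Finset V) (b δ L : ℕ) (hb : 1 ≤ b) (hBb : ∀ x, (B x).card ≤ b)
    (hδ : ∀ x, (univ.filter (fun y => adjB B x y)).card ≤ δ) (y : ℝ) (hy0 : 0 ≤ y)
    (hy : 2 * y ≤ (1 / (Zc b δ : ℝ)) ^ (2 * L)) (x : X) :
    ∑ i ∈ univ.filter (fun i : {i : Idx X V // ValidIdx B L i} => x ∈ i.1.1),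
      y ^ i.1.2.2.2.2.2.2.2.card ≤ 1 / 4 := by
  have h := sum_rules B b δ L hb hBb hδ (2 * y) (by linarith) hy x
  have h2 : ∑ i ∈ univ.filter (fun i : {i : Idx X V // ValidIdx B L i} => x ∈ i.1.1),
      y ^ i.1.2.2.2.2.2.2.2.card ≤
      ∑ i ∈ univ.filter (fun i : {i : Idx X V // ValidIdx B L i} => x ∈ i.1.1),
        (1 / 2) * (2 * y) ^ i.1.2.2.2.2.2.2.2.card := by
    refine sum_le_sum (fun i hi => ?_)
    have hD : 1 ≤ i.1.2.2.2.2.2.2.2.card := by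
      by_contra hcon
      have h0 : i.1.2.2.2.2.2.2.2.card = 0 := by omega
      have h3 := i.2.2.2.2.2.2.2.2.2
      rw [h0, Nat.mul_zero] at h3
      have h4 := card_pos.mpr i.2.2.1
      omega
    obtain ⟨k, hk⟩ : ∃ k, i.1.2.2.2.2.2.2.2.card = k + 1 := ⟨_, (Nat.sub_add_cancel hD).symm⟩
    rw [hk, mul_pow, pow_succ 2 k]
    have h5 : (1 : ℝ) ≤ 2 ^ k := one_le_pow₀ (by norm_num)
    have h6 : 0 ≤ y ^ (k + 1) := pow_nonneg hy0 _
    nlinarith
  refine h2.trans ?_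
  rw [← mul_sum]
  linarith

theorem ysum_part (h2 : YsumStatement) (B : X → Finset V) (b δ L' : ℕ)
    (hBb : ∀ x, (B x).card ≤ b)
    (hδ : ∀ x, (univ.filter (fun y => adjB B x y)).card ≤ δ) (y : ℝ) (hy0 : 0 ≤ y)
    (hy : y ≤ (1 / (Zy b δ : ℝ)) ^ (2 * L') / 2) (x : X) :
    ∑ i ∈ univ.filter (fun i : {i : Finset V × Finset X × Finset X // VY B L' i} =>
      x ∈ KZ B i.1.1), y ^ i.1.2.2.card ≤ 1 / 4 := by
  refine le_trans ?_ (h2 V X B b δ L' hBb hδ y hy0 hy x)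
  have h3 : ∑ i ∈ univ.filter (fun i : {i : Finset V × Finset X × Finset X // VY B L' i} =>
      x ∈ KZ B i.1.1), y ^ i.1.2.2.card =
      ∑ j ∈ (univ.filter (fun i : {i : Finset V × Finset X × Finset X // VY B L' i} =>
        x ∈ KZ B i.1.1)).map (Function.Embedding.subtype _), y ^ j.2.2.card := by
    rw [sum_map]
    rfl
  rw [h3]
  refine sum_le_sum_of_subset_of_nonneg ?_ (fun _ _ _ => pow_nonneg hy0 _)
  intro j hj
  rw [mem_map] at hj
  obtain ⟨i, hi, rfl⟩ := hj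
  rw [mem_filter] at hi ⊢
  exact ⟨mem_univ _, hi.2, i.2.2.1, i.2.2.2.1, i.2.2.2.2.1, i.2.2.2.2.2.1, i.2.2.2.2.2.2⟩

theorem sum_split {ι κ : Type} [Fintype ι] [Fintype κ] (K₁ : ι → Finset X) (K₂ : κ → Finset X)
    (D₁ : ι → Finset X) (D₂ : κ → Finset X) (y : ℝ) (x : X) :
    ∑ i ∈ univ.filter (fun i : ι ⊕ κ => x ∈ (Sum.elim K₁ K₂ i : Finset X)),
      y ^ (Sum.elim D₁ D₂ i : Finset X).card =
    ∑ i ∈ univ.filter (fun i : ι => x ∈ K₁ i), y ^ (D₁ i).card +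
      ∑ i ∈ univ.filter (fun i : κ => x ∈ K₂ i), y ^ (D₂ i).card := by
  rw [sum_filter, Fintype.sum_sum_type, sum_filter, sum_filter]
  rfl

theorem good (hYF : YfibStatement) (hYS : YsumStatement) : GoodStatement := by
  intro V X C _ _ _ B b δ L L' r q ord hord hB hBb hδ hr hL hL' hC
  have hC0 : 0 < Fintype.card C := lt_of_lt_of_le (Nat.succ_pos _) hC
  have hCne : Nonempty C := Fintype.card_pos_iff.mp hC0
  rcases isEmpty_or_nonempty X with hX | ⟨⟨x₁⟩⟩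
  · refine ⟨fun _ => Classical.arbitrary C, ?_, ?_⟩
    · intro τ x₀
      exact (hX.false x₀).elim
    · intro Z p _ hne
      obtain ⟨x, -⟩ := hne
      exact (hX.false x).elim
  have hb : 1 ≤ b := by have := hB x₁; have := hBb x₁; omega
  have hHsub : ∀ (τ : Fin 4) (K : Finset X) (x₀ : X), Hf τ K x₀ ⊆ K := by
    intro τ K x₀
    unfold Hf
    split_ifs
    · exact Finset.erase_subset _ _
    · exact Finset.Subset.refl _
  set D₀ : Idx X V → (X → C) → Submodule ℝ (X → V → ℝ × ℝ) := fun i c =>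
    famS B i.2.1 (Pf q i.2.2.2.2.2.2.1 i.2.2.1 i.2.2.2.1 i.2.2.2.2.1 i.2.2.2.2.2.1 (c i.2.2.1))
    with hD₀
  set T : Idx X V → Finset X := fun i => Hf i.2.2.2.2.2.2.1 i.2.1 i.2.2.1 with hT
  obtain ⟨BadH, hBadH⟩ : ∃ Bad : {i : Idx X V // ValidIdx B L i} → (X → C) → Prop,
      ∀ i c, Bad i c ↔ HasRel B q i.1.2.1 (Pf q i.1.2.2.2.2.2.2.1 i.1.2.2.1 i.1.2.2.2.1
        i.1.2.2.2.2.1 i.1.2.2.2.2.2.1 (c i.1.2.2.1)) c ∧
      i.1.2.2.2.2.2.2.2 = failSet ord (lamB q) (D₀ i.1 c) (T i.1) c := ⟨_, fun _ _ => Iff.rfl⟩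
  have hD₀T : ∀ (i : Idx X V) (c c' : X → C), (∀ y, y ∉ T i → c y = c' y) → D₀ i c = D₀ i c' := by
    intro i c c' h
    simp only [hD₀]
    congr 1
    by_cases hτ : i.2.2.2.2.2.2.1.val < 2
    · have : c i.2.2.1 = c' i.2.2.1 := by
        refine h _ ?_
        simp only [hT, Hf, if_pos hτ]
        exact Finset.notMem_erase _ _
      rw [this]
    · have h0 : i.2.2.2.2.2.2.1 ≠ 0 := by
        intro h'; rw [h'] at hτ; exact hτ (by decide)
      have h1 : i.2.2.2.2.2.2.1 ≠ 1 := by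
        intro h'; rw [h'] at hτ; exact hτ (by decide)
      simp only [Pf, if_neg h0, if_neg h1]
  have hyf := hYF V X C B q ord r hord hr
  have hfibH : ∀ (i : Idx X V) (hi : ValidIdx B L i) (c₀ : X → C),
      (univ.filter (fun c : X → C => (∀ x, x ∉ i.2.2.2.2.2.2.2 → c x = c₀ x) ∧
        BadH ⟨i, hi⟩ c)).card ≤ r ^ i.2.2.2.2.2.2.2.card := by
    intro i hi c₀
    refine le_trans (Finset.card_le_card ?_) (fail_fibre ord hord r (lamB q)
      (fun x (Φ : X → V → ℝ × ℝ) => Φ x ≠ 0 ∧ ∀ v, v ∉ B x → Φ x v = 0)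
      (fun x Φ h => hr x (Φ x) h.1 h.2) (T i) (D₀ i) (hD₀T i) i.2.2.2.2.2.2.2 c₀)
    intro c hc
    rw [mem_filter, hBadH] at hc
    rw [mem_filter]
    obtain ⟨-, h1, ⟨Φ, hΦ, h2, h3⟩, h4⟩ := hc
    refine ⟨mem_univ _, h1, ⟨Φ, hΦ, ?_, ?_⟩, h4⟩
    · intro x hx
      refine ⟨h2 x (hHsub _ _ _ hx), ?_⟩
      exact hΦ.1.2.1 x
    · intro x hx
      exact h3 x (hHsub _ _ _ hx)
  -- the bounds on the weight
  have hZc1 : (1 : ℝ) ≤ (Zc b δ : ℝ) := by
    have : 1 ≤ Zc b δ := by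
      unfold Zc
      have h1 : 1 ≤ b ^ 3 := Nat.one_le_pow _ _ hb
      have h2 : 1 ≤ 2 ^ (1 + δ) := Nat.one_le_two_pow
      nlinarith
    exact_mod_cast this
  have hZy1 : (1 : ℝ) ≤ (Zy b δ : ℝ) := by
    have : 1 ≤ Zy b δ := by
      unfold Zy
      have h1 : 1 ≤ 2 ^ (b + 2) := Nat.one_le_two_pow
      have h2 : 1 ≤ 2 ^ (1 + δ) := Nat.one_le_two_pow
      nlinarith
    exact_mod_cast this
  have hCR : (4 * r * (Zc b δ : ℝ) ^ (2 * L) * (Zy b δ : ℝ) ^ (2 * L')) ≤ (Fintype.card C : ℝ) := by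
    have h1 : 4 * r * (Zc b δ) ^ (2 * L) * (Zy b δ) ^ (2 * L') ≤ Fintype.card C :=
      (Nat.le_succ _).trans hC
    exact_mod_cast h1
  have hCpos : (0 : ℝ) < (Fintype.card C : ℝ) := by exact_mod_cast hC0
  have hr0 : (0 : ℝ) ≤ (r : ℝ) := Nat.cast_nonneg _
  have hp1 : (1 : ℝ) ≤ (Zc b δ : ℝ) ^ (2 * L) := one_le_pow₀ hZc1
  have hp2 : (1 : ℝ) ≤ (Zy b δ : ℝ) ^ (2 * L') := one_le_pow₀ hZy1
  have hy0 : (0 : ℝ) ≤ (2 * (r : ℝ)) / (Fintype.card C : ℝ) := by positivity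
  have hyH : 2 * ((2 * (r : ℝ)) / (Fintype.card C : ℝ)) ≤ (1 / (Zc b δ : ℝ)) ^ (2 * L) := by
    rw [one_div, inv_pow, ← one_div, mul_div_assoc', div_le_div_iff₀ hCpos (by positivity), one_mul]
    refine le_trans ?_ hCR
    have h1 : 0 ≤ 4 * (r : ℝ) * (Zc b δ : ℝ) ^ (2 * L) := by positivity
    nlinarith
  have hyY : (2 * (r : ℝ)) / (Fintype.card C : ℝ) ≤ (1 / (Zy b δ : ℝ)) ^ (2 * L') / 2 := by
    rw [one_div, inv_pow, ← one_div, div_div, div_le_div_iff₀ hCpos (by positivity), one_mul]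
    refine le_trans ?_ hCR
    have h1 : 0 ≤ 4 * (r : ℝ) * (Zy b δ : ℝ) ^ (2 * L') := by positivity
    nlinarith
  have hex : ∃ c : X → C, ∀ i : {i : Idx X V // ValidIdx B L i} ⊕
      {i : Finset V × Finset X × Finset X // VY B L' i},
      ¬ (Sum.elim (fun i => BadH i c) (fun i => YBad B q ord i.1.1 i.1.2.1 i.1.2.2 c) i) := by
    refine rosenfeld (C := C)
      (ι := {i : Idx X V // ValidIdx B L i} ⊕ {i : Finset V × Finset X × Finset X // VY B L' i})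
      (Sum.elim (fun i => i.1.1) (fun i => KZ B i.1.1))
      (Sum.elim (fun i => i.1.2.2.2.2.2.2.2) (fun i => i.1.2.2))
      (fun i c => Sum.elim (fun i => BadH i c)
        (fun i => YBad B q ord i.1.1 i.1.2.1 i.1.2.2 c) i) r hC0 ?_ ?_ ?_ ?_
    · rintro (i | i)
      · exact i.2.2.1
      · exact i.2.1
    · -- dependence
      rintro (⟨i, hi⟩ | ⟨i, hi⟩) c c' hcc hbad
      · simp only [Sum.elim_inl] at hcc hbad ⊢
        rw [hBadH] at hbad ⊢
        obtain ⟨hrel, hD⟩ := hbad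
        have hx₀ : c i.2.2.1 = c' i.2.2.1 := hcc _ hi.2.2.2.1
        have hK : ∀ x ∈ i.2.1, c x = c' x := fun x hx => hcc x (hi.2.2.1 hx)
        refine ⟨?_, ?_⟩
        · obtain ⟨Φ, hΦ, h1, h2⟩ := hrel
          refine ⟨Φ, ?_, h1, ?_⟩
          · show Φ ∈ famS B i.2.1 (Pf q _ _ _ _ _ (c' i.2.2.1))
            rw [← hx₀]; exact hΦ
          · intro x hx
            rw [← hK x hx]; exact h2 x hx
        · show _ = failSet ord (lamB q) (D₀ i c') (T i) c'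
          have h3 : D₀ i c' = D₀ i c := by simp only [hD₀]; rw [hx₀]
          rw [h3, ← failSet_congr ord (lamB q) (D₀ i c) (T i) c c'
            (fun x hx => hK x (hHsub _ _ _ hx))]
          exact hD
      · simp only [Sum.elim_inr] at hcc hbad ⊢
        exact (hyf i.1 i.2.1 i.2.2).2.1 c c' hcc hbad
    · -- fibres
      rintro (⟨i, hi⟩ | ⟨i, hi⟩) c₀
      · exact hfibH i hi c₀
      · exact (hyf i.1 i.2.1 i.2.2).1 c₀
    · -- the sum
      intro x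
      have h1 := hsum_part B b δ L hb hBb hδ _ hy0 hyH x
      have h2 := ysum_part hYS B b δ L' hBb hδ _ hy0 hyY x
      have h3 := sum_split (fun i : {i : Idx X V // ValidIdx B L i} => i.1.1)
        (fun i : {i : Finset V × Finset X × Finset X // VY B L' i} => KZ B i.1.1)
        (fun i : {i : Idx X V // ValidIdx B L i} => i.1.2.2.2.2.2.2.2)
        (fun i : {i : Finset V × Finset X × Finset X // VY B L' i} => i.1.2.2)
        (2 * (r : ℝ) / (Fintype.card C : ℝ)) x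
      refine le_trans (le_of_eq h3) ?_
      linarith
  obtain ⟨c, hc⟩ := hex
  refine ⟨c, ?_, ?_⟩
  · intro τ x₀ u v w K hτ hKc hK0 hne hK' hu hv hw hrel
    by_contra hcon
    push Not at hcon
    set D := failSet ord (lamB q) (famS B K (Pf q τ x₀ u v w (c x₀))) (Hf τ K x₀) c with hD
    have hDK : D ⊆ insert x₀ K := by
      refine (Finset.filter_subset _ _).trans ((hHsub τ K x₀).trans (Finset.subset_insert _ _))
    have hval : ValidIdx B L (insert x₀ K, K, x₀, u, v, w, τ, D) :=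
      ⟨hK', Finset.insert_nonempty _ _, Finset.subset_insert _ _, Finset.mem_insert_self _ _,
        hu, hv, hw, hDK, hcon⟩
    exact hc (Sum.inl ⟨(insert x₀ K, K, x₀, u, v, w, τ, D), hval⟩) ((hBadH _ _).mpr ⟨hrel, rfl⟩)
  · intro Z p hKc hK0 hZ hp hpZ
    by_contra hcon
    push Not at hcon
    have hbad : YBad B q ord Z (ncs B p) (detSet B (qc q c) Z (ncs B p) ord) c :=
      ⟨⟨p, hp, hpZ, rfl⟩, rfl⟩
    have h3 := (hyf Z (ncs B p) (detSet B (qc q c) Z (ncs B p) ord)).2.2 c hbad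
    have hval : VY B L' (Z, ncs B p, detSet B (qc q c) Z (ncs B p) ord) :=
      ⟨hK0, hKc, hZ, h3.1, h3.2.trans h3.1, hcon⟩
    exact hc (Sum.inr ⟨(Z, ncs B p, detSet B (qc q c) Z (ncs B p) ord), hval⟩) hbad

end Pool.Agent.Lib.MP_04668c_co.E.H53
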