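import Pool.Agent.Lib.MP_04668c_co.E.Base

/-!
# YCOUNT: the dimension of the placements supported on `Z`
-/

set_option autoImplicit false
set_option linter.unusedSectionVars false

namespace Pool.Agent.Lib.MP_04668c_co.E.H53

open Finset Classical Module
open Pool.Agent.Lib.MP_04668c_co

variable {V X : Type} [Fintype V] [Fintype X]

theorem kerR_mono (B : X → Finset V) (q : X → V → ℝ × ℝ) (Z : Finset V) {Y Y' : Finset X}
    (h : Y ⊆ Y') : kerR B q Z Y' ≤ kerR B q Z Y := by
  intro p hp
  rw [mem_kerR] at hp ⊢
  exact ⟨hp.1, fun x hx => hp.2 x (h hx)⟩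

theorem kerR_congr (B : X → Finset V) (q : X → V → ℝ × ℝ) (Z : Finset V) {Y Y' : Finset X}
    (h : ∀ x ∈ KZ B Z, x ∈ Y' → x ∈ Y) : kerR B q Z Y ≤ kerR B q Z Y' := by
  intro p hp
  rw [mem_kerR] at hp ⊢
  refine ⟨hp.1, fun x hx => ?_⟩
  by_cases hxK : x ∈ KZ B Z
  · exact hp.2 x (h x hxK hx)
  · refine ⟨0, 0, fun v hv => ?_⟩
    have hvZ : v ∉ Z := by
      intro hvZ
      apply hxK
      rw [KZ, mem_filter]
      exact ⟨mem_univ _, v, hv, hvZ⟩
    rw [hp.1 v hvZ]
    simp

theorem ycount (h1 : YdropStatement) (h2 : YbaseStatement) : YcountStatement := by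
  intro V X _ _ B b q ord Z p hB hBb hord hind hp hpZ
  set N := ncs B p with hN
  set K := KZ B Z with hK
  have hpk := (mem_kerR B q Z univ p).mp hp
  have hNK : N ⊆ K := by
    intro x hx
    rw [hN, ncs, mem_filter] at hx
    obtain ⟨-, u, hu, v, hv, hne⟩ := hx
    rw [hK, KZ, mem_filter]
    refine ⟨mem_univ _, ?_⟩
    by_cases huZ : u ∈ Z
    · exact ⟨u, hu, huZ⟩
    · refine ⟨v, hv, ?_⟩
      by_contra hvZ
      exact hne (by rw [hpk.1 u huZ, hpk.1 v hvZ])
  have hsub : ∀ x ∈ K \ N, B x ⊆ Z := by
    intro x hx u hu
    rw [mem_sdiff, hK, KZ, mem_filter, hN, ncs, mem_filter] at hx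
    obtain ⟨⟨-, v, hv, hvZ⟩, hcon⟩ := hx
    by_contra huZ
    apply hcon
    refine ⟨mem_univ _, u, hu, v, hv, ?_⟩
    rw [hpk.1 u huZ]
    exact (hpZ v hvZ).symm
  have hbase := h2 V X B q Z (K \ N) hB hind hsub
  set D := detSet B q Z N ord with hD
  have key : ∀ T : Finset X, T ⊆ N → (∀ y ∈ N, ∀ t ∈ T, ord y < ord t → y ∈ T) →
      finrank ℝ (kerR B q Z ((K \ N) ∪ T)) + Rk B (K \ N) + Rk B T ≤
        2 * Z.card + 2 * b * (D ∩ T).card := by
    intro T
    induction T using Finset.induction_on_max_value ord with
    | empty =>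
      intro _ _
      rw [union_empty]
      have : Rk B (∅ : Finset X) = 0 := by simp [Rk]
      rw [this]
      omega
    | insert z T hz hmax ih =>
      intro hTN hdown
      have hlt : ∀ t ∈ T, ord t < ord z := fun t ht =>
        lt_of_le_of_ne (hmax t ht) (fun h => hz ((hord h) ▸ ht))
      have hzN : z ∈ N := hTN (mem_insert_self _ _)
      have ih' := ih (fun t ht => hTN (mem_insert_of_mem ht)) (by
        intro y hy t ht hyt
        have h3 := hdown y hy t (mem_insert_of_mem ht) hyt
        rcases mem_insert.mp h3 with h | h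
        · subst h
          have := hlt t ht
          omega
        · exact h)
      have hRk : Rk B (insert z T) = (2 * (B z).card - 3) + Rk B T := by
        unfold Rk
        rw [sum_insert hz]
      have hU : (K \ N) ∪ insert z T = insert z ((K \ N) ∪ T) := by
        ext y; simp only [mem_union, mem_insert]; tauto
      rw [hRk, hU]
      have hzb := hBb z
      by_cases hzD : z ∈ D
      · have h3 : (D ∩ insert z T).card = (D ∩ T).card + 1 := by
          have : D ∩ insert z T = insert z (D ∩ T) := by
            ext y
            simp only [mem_inter, mem_insert]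
            constructor
            · rintro ⟨h, rfl | h'⟩
              · exact Or.inl rfl
              · exact Or.inr ⟨h, h'⟩
            · rintro (rfl | ⟨h, h'⟩)
              · exact ⟨hzD, Or.inl rfl⟩
              · exact ⟨h, Or.inr h'⟩
          rw [this, card_insert_of_notMem (fun h => hz (mem_inter.mp h).2)]
        have h4 : finrank ℝ (kerR B q Z (insert z ((K \ N) ∪ T))) ≤
            finrank ℝ (kerR B q Z ((K \ N) ∪ T)) :=
          Submodule.finrank_mono (kerR_mono B q Z (subset_insert _ _))
        rw [h3, Nat.mul_add, mul_one]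
        omega
      · have h3 : (D ∩ insert z T) = (D ∩ T) := by
          ext y
          simp only [mem_inter, mem_insert]
          constructor
          · rintro ⟨h, rfl | h'⟩
            · exact absurd h hzD
            · exact ⟨h, h'⟩
          · rintro ⟨h, h'⟩
            exact ⟨h, Or.inr h'⟩
        have hTx : Tx B q Z N ord z = kerR B q Z ((K \ N) ∪ T) := by
          unfold Tx
          refine le_antisymm (kerR_congr B q Z ?_) (kerR_congr B q Z ?_)
          · intro x hxK hx
            rw [mem_filter]
            refine ⟨mem_univ _, ?_⟩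
            rcases mem_union.mp hx with h | h
            · exact Or.inl (mem_sdiff.mp h).2
            · exact Or.inr (hlt x h)
          · intro x hxK hx
            rw [mem_filter] at hx
            rw [mem_union]
            by_cases hxN : x ∈ N
            · right
              have h5 := hx.2.resolve_left (fun h => h hxN)
              rcases mem_insert.mp (hdown x hxN z (mem_insert_self _ _) h5) with h | h
              · subst h; omega
              · exact h
            · left
              exact mem_sdiff.mpr ⟨hxK, hxN⟩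
        have hnp : ¬ Prp B (kerR B q Z ((K \ N) ∪ T)) z := by
          intro h
          apply hzD
          rw [hD, detSet, mem_filter]
          exact ⟨hzN, by rw [hTx]; exact h⟩
        have h4 := h1 V X B q Z ((K \ N) ∪ T) z (hB z) hnp
        rw [h3]
        omega
  have hfin := key N (Finset.Subset.refl _) (fun y hy _ _ _ => hy)
  have h5 : kerR B q Z ((K \ N) ∪ N) = kerZ B q Z := by
    unfold kerZ
    refine le_antisymm (kerR_congr B q Z ?_) (kerR_mono B q Z (subset_univ _))
    intro x hxK _
    rw [mem_union]
    by_cases hxN : x ∈ N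
    · exact Or.inr hxN
    · exact Or.inl (mem_sdiff.mpr ⟨hxK, hxN⟩)
  have h6 : Rk B (K \ N) + Rk B N = Rk B K := by
    unfold Rk
    exact sum_sdiff hNK
  have h7 : (D ∩ N).card ≤ D.card := card_le_card inter_subset_left
  rw [h5] at hfin
  have h8 := Nat.mul_le_mul_left (2 * b) h7
  omega

end Pool.Agent.Lib.MP_04668c_co.E.H53
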