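import Pool.Agent.Lib.MP_04668c_co.E.Base

/-!
# YFIB: fibres of the rules of the second kind
-/

set_option autoImplicit false
set_option linter.unusedSectionVars false

namespace Pool.Agent.Lib.MP_04668c_co.E.H53

open Finset Classical Module
open Pool.Agent.Lib.MP_04668c_co

variable {V X C : Type} [Fintype V] [Fintype X] [Fintype C]

theorem ip_body (Bx : Finset V) (p q F : V → ℝ × ℝ) (s : ℝ) (a : ℝ × ℝ)
    (hp : ∀ v ∈ Bx, p v = s • q v + a) (hF : ∀ v, v ∉ Bx → F v = 0) (hsum : ∑ v, F v = 0) :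
    ip p F = s * ip q F := by
  have h1 : (∑ v, (F v).1) = 0 := by
    have := congrArg Prod.fst hsum
    rw [Prod.fst_sum] at this
    exact this
  have h2 : (∑ v, (F v).2) = 0 := by
    have := congrArg Prod.snd hsum
    rw [Prod.snd_sum] at this
    exact this
  have h3 : ∀ v, (F v).1 * (p v).1 + (F v).2 * (p v).2 =
      s * ((F v).1 * (q v).1 + (F v).2 * (q v).2) + ((F v).1 * a.1 + (F v).2 * a.2) := by
    intro v
    by_cases hv : v ∈ Bx
    · rw [hp v hv]
      simp only [Prod.fst_add, Prod.snd_add, Prod.smul_fst, Prod.smul_snd, smul_eq_mul]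
      ring
    · rw [hF v hv]
      simp
  have h4 : (∑ v, ((F v).1 * a.1 + (F v).2 * a.2)) = 0 := by
    rw [Finset.sum_add_distrib, ← Finset.sum_mul, ← Finset.sum_mul, h1, h2]
    ring
  rw [ip_apply, ip_apply, Finset.sum_congr rfl (fun v _ => h3 v), Finset.sum_add_distrib,
    ← Finset.mul_sum, h4, add_zero]

theorem kerR_col (B : X → Finset V) (q q' : X → V → ℝ × ℝ) (Z : Finset V) (Y : Finset X)
    (h : ∀ x ∈ Y, x ∈ KZ B Z → q x = q' x) : kerR B q Z Y ≤ kerR B q' Z Y := by
  intro p hp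
  rw [mem_kerR] at hp ⊢
  refine ⟨hp.1, fun x hx => ?_⟩
  by_cases hxK : x ∈ KZ B Z
  · rw [← h x hx hxK]
    exact hp.2 x hx
  · refine ⟨0, 0, fun v hv => ?_⟩
    have hvZ : v ∉ Z := by
      intro hvZ
      apply hxK
      rw [KZ, mem_filter]
      exact ⟨mem_univ _, v, hv, hvZ⟩
    rw [hp.1 v hvZ]
    simp

theorem kerR_col_eq (B : X → Finset V) (q q' : X → V → ℝ × ℝ) (Z : Finset V) (Y : Finset X)
    (h : ∀ x ∈ Y, x ∈ KZ B Z → q x = q' x) : kerR B q Z Y = kerR B q' Z Y :=
  le_antisymm (kerR_col B q q' Z Y h) (kerR_col B q' q Z Y (fun x hx hx' => (h x hx hx').symm))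

theorem ncs_sub (B : X → Finset V) (Z : Finset V) (p : V → ℝ × ℝ) (hp : ∀ v, v ∉ Z → p v = 0) :
    ncs B p ⊆ KZ B Z := by
  intro x hx
  rw [ncs, mem_filter] at hx
  obtain ⟨-, u, hu, v, hv, hne⟩ := hx
  rw [KZ, mem_filter]
  refine ⟨mem_univ _, ?_⟩
  by_cases huZ : u ∈ Z
  · exact ⟨u, hu, huZ⟩
  · refine ⟨v, hv, ?_⟩
    by_contra hvZ
    exact hne (by rw [hp u huZ, hp v hvZ])

theorem yfib : YfibStatement := by
  intro V X C _ _ _ B q ord r hord hr Z N D
  have hsub : ∀ c : X → C, YBad B q ord Z N D c → N ⊆ KZ B Z ∧ D ⊆ N := by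
    rintro c ⟨⟨p, hp, -, hN⟩, hD⟩
    refine ⟨?_, ?_⟩
    · rw [hN]
      exact ncs_sub B Z p ((mem_kerR _ _ _ _ _).mp hp).1
    · rw [hD]
      exact filter_subset _ _
  refine ⟨?_, ?_, hsub⟩
  · intro c₀
    by_cases hDN : D ⊆ N
    swap
    · have : univ.filter (fun c : X → C => (∀ x, x ∉ D → c x = c₀ x) ∧ YBad B q ord Z N D c) = ∅ := by
        rw [filter_eq_empty_iff]
        rintro c - ⟨-, h⟩
        exact hDN (hsub c h).2
      rw [this]; simp
    set Val : X → (X → C) → Finset C := fun x c =>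
      if h : Prp B (Tx B (qc q c) Z N ord x) x then
        univ.filter (fun i => ip (q i x) h.choose = 0) else ∅ with hVal
    refine le_trans (card_le_card ?_) (card_sequential ord hord r D c₀ Val ?_ ?_)
    · intro c hc
      simp only [mem_filter, mem_univ, true_and] at hc ⊢
      obtain ⟨h1, ⟨p, hp, hpZ, hN⟩, hD⟩ := hc
      refine ⟨h1, ?_⟩
      intro x hx
      have hx' := hx
      rw [hD, detSet, mem_filter] at hx'
      obtain ⟨hxN, h⟩ := hx'
      simp only [hVal, dif_pos h, mem_filter, mem_univ, true_and]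
      obtain ⟨hF0, hFs, hFsum, hFT⟩ := h.choose_spec
      have hpk := (mem_kerR _ _ _ _ _).mp hp
      have hpT : p ∈ Tx B (qc q c) Z N ord x :=
        (mem_kerR _ _ _ _ _).mpr ⟨hpk.1, fun y _ => hpk.2 y (mem_univ _)⟩
      have h0 := hFT p hpT
      obtain ⟨s, a, hsa⟩ := hpk.2 x (mem_univ _)
      rw [ip_body (B x) p (qc q c x) h.choose s a hsa hFs hFsum] at h0
      have hs : s ≠ 0 := by
        intro hs
        rw [hN, ncs, mem_filter] at hxN
        obtain ⟨-, u, hu, v, hv, hne⟩ := hxN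
        apply hne
        rw [hsa u hu, hsa v hv, hs, zero_smul, zero_smul]
      exact (mul_eq_zero.mp h0).resolve_left hs
    · intro x c
      by_cases h : Prp B (Tx B (qc q c) Z N ord x) x
      · simp only [hVal, dif_pos h]
        exact hr x _ h.choose_spec.1 h.choose_spec.2.1
      · simp only [hVal, dif_neg h]
        simp
    · intro x hx c c' hcc
      have h1 : Tx B (qc q c) Z N ord x = Tx B (qc q c') Z N ord x := by
        unfold Tx
        refine kerR_col_eq B _ _ Z _ (fun y hy _ => ?_)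
        rw [mem_filter] at hy
        have : c y = c' y := by
          refine hcc y ?_
          rcases hy.2 with h | h
          · exact Or.inl (fun h' => h (hDN h'))
          · exact Or.inr h
        simp only [qc, this]
      simp only [hVal]
      rw [h1]
  · rintro c c' hcc ⟨⟨p, hp, hpZ, hN⟩, hD⟩
    have hk : ∀ Y : Finset X, kerR B (qc q c) Z Y = kerR B (qc q c') Z Y := by
      intro Y
      refine kerR_col_eq B _ _ Z _ (fun y _ hy => ?_)
      simp only [qc, hcc y hy]
    refine ⟨⟨p, ?_, hpZ, hN⟩, ?_⟩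
    · show p ∈ kerR B (qc q c') Z univ
      rw [← hk]
      exact hp
    · rw [hD]
      unfold detSet Tx
      refine filter_congr (fun x _ => ?_)
      rw [hk]

end Pool.Agent.Lib.MP_04668c_co.E.H53
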