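import Pool.Agent.Lib.MP_04668c_co.E.Base

/-!
# MAIN: assembly for large expanders
-/

set_option autoImplicit false
set_option linter.unusedSectionVars false

namespace Pool.Agent.Lib.MP_04668c_co.E.H53

open Finset Classical Module
open Pool.Agent.Lib.MP_04668c_co

theorem exists_num {V X : Type} [Fintype V] [Fintype X] (B : X → Finset V) (b : ℕ)
    (hb : ∀ x, (B x).card ≤ b) : ∃ idx : X → V → ℕ, Num B b idx := by
  set idx : X → V → ℕ := fun x v => if h : v ∈ B x then ((B x).equivFin ⟨v, h⟩).val else 0 with hidx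
  refine ⟨idx, fun x => ⟨?_, ?_⟩⟩
  · intro u hu v hv h
    simp only [hidx, dif_pos hu, dif_pos hv] at h
    have := (B x).equivFin.injective (Fin.ext h)
    exact congrArg Subtype.val this
  · intro u hu
    simp only [hidx, dif_pos hu]
    exact lt_of_lt_of_le (Fin.isLt _) (hb x)

theorem main (hSys : SysStatement) (hDimn : DimnStatement) (hBase : BaseStatement)
    (hOpenc : OpencStatement) (hGenc : GencStatement) (hKillc : KillcStatement)
    (hGood : GoodStatement) (hSupp : SuppStatement) (hBlock : BlockStatement)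
    (hNoncol : NoncolStatement) (hArith : ArithStatement) (hTune : TuneStatement)
    (hTcard : TcardStatement) (hFpos : FposStatement) (hDirs : DirsStatement) :
    MainStatement := by
  intro n₀ hn₀
  obtain ⟨n₁', hn₁'⟩ := hArith n₀ hn₀
  obtain ⟨b, hb⟩ : ∃ b, b = 12 * n₀ := ⟨_, rfl⟩
  obtain ⟨L, hL⟩ : ∃ L, L = 36 * n₀ ^ 2 * (12 * n₀) ^ 2 := ⟨_, rfl⟩
  obtain ⟨s, hs⟩ : ∃ s, s = numC b (4 * b) L (12 * n₀ * b) (4 * b) := ⟨_, rfl⟩
  have hb1 : 1 ≤ b := by omega
  have hn2 : 1 ≤ n₀ ^ 2 := Nat.one_le_pow _ _ hn₀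
  have hL24 : 24 * n₀ ≤ L := by
    rw [hL]
    have h1 : n₀ ≤ n₀ ^ 2 := by nlinarith
    have h2 : 1 ≤ (12 * n₀) ^ 2 := Nat.one_le_pow _ _ (by omega)
    calc 24 * n₀ ≤ 36 * n₀ ^ 2 * 1 := by omega
      _ ≤ 36 * n₀ ^ 2 * (12 * n₀) ^ 2 := Nat.mul_le_mul_left _ h2
  have hL1 : 1 ≤ L := by omega
  refine ⟨numD s b + 4 * (12 * n₀), max n₁' (48 * n₀), ?_⟩
  intro V _ G hn hdeg hexp
  have hnA : n₁' ≤ Fintype.card V := (le_max_left _ _).trans hn
  have hnB : 48 * n₀ ≤ Fintype.card V := (le_max_right _ _).trans hn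
  obtain ⟨S, -, hScard⟩ := Finset.exists_subset_card_eq (s := (univ : Finset V)) (n := 12 * n₀)
    (by rw [card_univ]; omega)
  obtain ⟨X, hX, B, hS'⟩ := hSys V G S n₀ L hn₀ hL24 hnB hdeg hexp hScard
  rw [← hb] at hS'
  have hS : Sys G S B n₀ L b := hS'
  obtain ⟨idx, hidx⟩ := exists_num B b hS.size
  have hd := hDimn V X B hS.two hS.lam
  obtain ⟨j, a, hj, hind⟩ := hBase V X B hS.two hd
  have hfin1 := hOpenc V X B idx j a s hind
  obtain ⟨hfin2, hfin3⟩ := hGenc V X B b idx j a s hidx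
  obtain ⟨τ, hτ⟩ := ((hfin1.union (hfin2.union (hfin3.union (Set.finite_singleton (0 : ℝ)))))).exists_notMem
  simp only [Set.mem_union, Set.mem_singleton_iff, not_or] at hτ
  obtain ⟨hτ1, hτ2, hτ3, hτ0⟩ := hτ
  have g1 : ∀ c : X → Fin s, Indep B (fun x => qs idx j a τ (c x).val x) := by
    by_contra h
    exact hτ1 h
  have g2 : ∀ (i : Fin s) (x : X) (u v : V), u ∈ B x → v ∈ B x → u ≠ v →
      qs idx j a τ i.val x u ≠ qs idx j a τ i.val x v := by
    by_contra h
    exact hτ2 h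
  have g3 : ∀ (i : Fin s) (x : X) (u v w : V), u ∈ B x → v ∈ B x → w ∈ B x → u ≠ v →
      w ≠ u → w ≠ v →
      (qs idx j a τ i.val x u - qs idx j a τ i.val x v).1 *
          ((qs idx j a τ i.val x w).2 - (qs idx j a τ i.val x u).2) -
        (qs idx j a τ i.val x u - qs idx j a τ i.val x v).2 *
          ((qs idx j a τ i.val x w).1 - (qs idx j a τ i.val x u).1) ≠ 0 := by
    by_contra h
    exact hτ3 h
  set q : Fin s → X → V → ℝ × ℝ := fun i x => qs idx j a τ i.val x with hq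
  have hr := hKillc V X B b idx j a s τ hidx hτ0
  obtain ⟨ord, hord⟩ : ∃ ord : X → ℕ, Function.Injective ord :=
    ⟨fun x => ((Fintype.equivFin X) x).val, fun x y h => (Fintype.equivFin X).injective (Fin.ext h)⟩
  have hδ : ∀ x, (univ.filter (fun y => adjB B x y)).card ≤ 4 * b := by
    intro x
    calc (univ.filter (fun y => adjB B x y)).card
        ≤ ((B x).biUnion (fun v => univ.filter (fun y => v ∈ B y))).card := by
          refine card_le_card ?_
          intro y hy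
          rw [mem_filter] at hy
          obtain ⟨-, v, hv, hv'⟩ := hy
          rw [mem_biUnion]
          exact ⟨v, hv, by rw [mem_filter]; exact ⟨mem_univ _, hv'⟩⟩
      _ ≤ (B x).card * 4 := card_biUnion_le_card_mul _ _ _ (fun v _ => hS.deg v)
      _ ≤ 4 * b := by have := hS.size x; omega
  obtain ⟨c, hHH, hYY⟩ := hGood V X (Fin s) B b (4 * b) L (12 * n₀ * b) (4 * b) q ord hord hS.two
    hS.size hδ hr hL1 (by
      have : 0 < 12 * n₀ * b := Nat.mul_pos (by omega) hb1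
      omega) (by rw [Fintype.card_fin, hs])
  have hIc : Indep B (qc q c) := g1 c
  have hnc : ∀ x, ∃ u ∈ B x, ∃ v ∈ B x, qc q c x u ≠ qc q c x v := by
    intro x
    obtain ⟨u, hu, v, hv, huv⟩ := Finset.one_lt_card.mp (hS.two x)
    exact ⟨u, hu, v, hv, g2 (c x) x u v hu hv huv⟩
  have hsupp := hSupp V X (Fin s) G S B n₀ L b q ord c hn₀ hL1 hS hord hHH g2 g3
  have hblock := hBlock V X (Fin s) G S B n₀ L b q ord c hn₀ hb1 hS hord hIc g2 hYY
  obtain ⟨p, hp, hpM⟩ := hNoncol V X G S B n₀ L b (qc q c) hn₀ (by omega) hdeg hexp hS hblock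
  obtain ⟨κ, hκ⟩ : ∃ κ, κ = 9 * n₀ * (Fintype.card V + 3 * L) / L := ⟨_, rfl⟩
  have hLκ : L * κ ≤ 9 * n₀ * (Fintype.card V + 3 * L) := by
    rw [hκ]
    exact Nat.mul_div_le _ _
  obtain ⟨m, hm1, hm2⟩ := hn₁' (Fintype.card V) hnA (ncs B p).card κ (by rw [← hb]; exact hpM)
    (by rw [← hL]; exact hLκ)
  have htc := (hTcard V X B b hS.two hS.size hS.deg).2
  obtain ⟨ρ, μ, t, htests⟩ := hTune V X B b κ m idx (qc q c) p hidx hb1 hIc hnc (by
      intro i hi hmem
      obtain ⟨K, Φ, h1, h2, h3, h4⟩ := hsupp i hi hmem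
      refine ⟨K, Φ, h1, h2, h3, ?_⟩
      rw [hκ, Nat.le_div_iff_mul_le (by omega), mul_comm]
      exact h4) hp (by rw [hb]; exact hm1) (by
      refine lt_of_le_of_lt ?_ hm2
      rw [← hb]
      exact Nat.pow_le_pow_left htc 2)
  obtain ⟨f, hf1, hf2, hf3⟩ := hFpos V X B (qc q c + t • dl idx ρ μ) hS.two htests
  obtain ⟨Sd, hSd, hdir⟩ := hDirs V X B b s idx j a τ t c ρ μ hidx hj
  have hdraw : Drawable (del G S) (numD s b) := by
    refine ⟨f, hf1, ?_, Sd, hSd, ?_⟩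
    · intro u v w huv hwu hwv
      obtain ⟨x, hu, hv⟩ := hS.cov u v huv.1 huv.2.1 huv.2.2
      exact hf2 x u v w hu hv huv.1.ne hwu hwv
    · intro u v huv
      obtain ⟨x, hu, hv⟩ := hS.cov u v huv.1 huv.2.1 huv.2.2
      obtain ⟨t', ht'⟩ := hf3 x u v hu hv
      exact ⟨_, hdir x u v hu hv, t', ht'⟩
  have hfinal := add_vertices G (numD s b) 4 hdeg S hdraw
  rw [hScard] at hfinal
  exact hfinal

end Pool.Agent.Lib.MP_04668c_co.E.H53
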